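import Pool.Agent.Y300.KS.Stm

/-! The probability of the event of a block (task KS-PC of helper300). -/

open Set MeasureTheory ProbabilityTheory Filter Topology

set_option linter.unusedSectionVars false

namespace Pool.Agent.Y484.KS

open Pool.Agent.K300 Pool.Agent.Y300.KS

lemma pr_nonneg (n I J : ℕ) (m : ℕ × ℕ) : 0 ≤ pr n I J m := by
  unfold pr
  positivity

/-- a decreasing sequence of events -/
lemma iInter_bound {α : Type*} [MeasurableSpace α] {μ : Measure α} [IsProbabilityMeasure μ]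
    {F : ℕ → Set α} (hm : ∀ K, MeasurableSet (F K)) (ha : Antitone F) {p : ℝ}
    (hp : ∀ K, p ≤ μ.real (F K)) : p ≤ μ.real (⋂ K, F K) := by
  have h1 : Tendsto (fun K => μ (F K)) atTop (𝓝 (μ (⋂ K, F K))) :=
    tendsto_measure_iInter_atTop (fun K => (hm K).nullMeasurableSet) ha
      ⟨0, measure_ne_top _ _⟩
  have h2 : Tendsto (fun K => μ.real (F K)) atTop (𝓝 (μ.real (⋂ K, F K))) :=
    (ENNReal.tendsto_toReal (measure_ne_top _ _)).comp h1
  exact ge_of_tendsto' h2 hp

/-- the energy of the fluctuations over a finite type -/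
noncomputable def enk (n I J : ℕ) (B : ℝ) (A : Finset (ℕ × ℕ)) (K : ℕ)
    (x : {m // m ∈ A} → ℝ) : ℝ :=
  ∑ k ∈ Finset.range K, ∑ l ∈ Finset.range K,
    (∑ m : {m // m ∈ A}, co n I J B k l m.1 *
      (x m - (∑ k, x k) / Fintype.card {m // m ∈ A})) ^ 2

lemma enk_mono (n I J : ℕ) (B : ℝ) (A : Finset (ℕ × ℕ)) (x : {m // m ∈ A} → ℝ) {K K' : ℕ}
    (h : K ≤ K') : enk n I J B A K x ≤ enk n I J B A K' x := by
  have hs : Finset.range K ⊆ Finset.range K' := Finset.range_subset_range.2 h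
  unfold enk
  refine (Finset.sum_le_sum fun k _ => Finset.sum_le_sum_of_subset_of_nonneg hs
    fun l _ _ => sq_nonneg _).trans ?_
  exact Finset.sum_le_sum_of_subset_of_nonneg hs fun k _ _ =>
    Finset.sum_nonneg fun l _ => sq_nonneg _

lemma measurable_enk (n I J : ℕ) (B : ℝ) (A : Finset (ℕ × ℕ)) (K : ℕ) :
    Measurable (enk n I J B A K) := by
  unfold enk
  fun_prop

/-- the weight of the block -/
noncomputable def sig (n I J : ℕ) (B : ℝ) (A : Finset (ℕ × ℕ)) : ℝ :=
  ∑ m ∈ A, pr n I J m * Real.exp (4 * B * ab n I J m)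

lemma sig_nonneg (n I J : ℕ) (B : ℝ) (A : Finset (ℕ × ℕ)) : 0 ≤ sig n I J B A :=
  Finset.sum_nonneg fun m _ => mul_nonneg (pr_nonneg n I J m) (Real.exp_pos _).le

/-- the window event with a small energy, for one `K` -/
lemma one_K (he : S_ENCO) {ν : Measure ℝ} [IsProbabilityMeasure ν]
    (hν : Integrable (fun x : ℝ => x ^ 2) ν) (n I J : ℕ) {B : ℝ} (hB : 0 ≤ B)
    (A : Finset (ℕ × ℕ)) (K : ℕ) {v p : ℝ} (hN : 0 < A.card)
    (hp : p ≤ (Measure.pi (fun _ : {m // m ∈ A} => ν)).real (win {m // m ∈ A} v)) :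
    p / 2 ≤ (Measure.pi (fun _ : {m // m ∈ A} => ν)).real
      (win {m // m ∈ A} v ∩ {x | enk n I J B A K x ≤ 8 * sig n I J B A}) := by
  classical
  have hcard : Fintype.card {m // m ∈ A} = A.card := Fintype.card_coe _
  have hN0 : (0:ℝ) < A.card := by exact_mod_cast hN
  have hco : ∑ t ∈ Finset.range K ×ˢ Finset.range K, ∑ m : {m // m ∈ A}, co n I J B t.1 t.2 m.1 ^ 2
      ≤ sig n I J B A := by
    have h1 := he n I J A B K hB
    rw [← Finset.sum_product' (f := fun k l => ∑ m ∈ A, co n I J B k l m ^ 2)] at h1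
    refine le_trans (le_of_eq ?_) h1
    refine Finset.sum_congr rfl fun t _ => ?_
    exact Finset.sum_coe_sort A (fun m => co n I J B t.1 t.2 m ^ 2)
  have hen : ∀ x : {m // m ∈ A} → ℝ, enk n I J B A K x =
      ∑ t ∈ Finset.range K ×ˢ Finset.range K, (∑ m : {m // m ∈ A}, co n I J B t.1 t.2 m.1 *
        (x m - (∑ k, x k) / Fintype.card {m // m ∈ A})) ^ 2 := by
    intro x
    unfold enk
    rw [← Finset.sum_product' (f := fun k l => (∑ m : {m // m ∈ A}, co n I J B k l m.1 *
        (x m - (∑ k, x k) / Fintype.card {m // m ∈ A})) ^ 2)]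
  set S := sig n I J B A with hS
  have hS0 : 0 ≤ S := sig_nonneg n I J B A
  -- the weights
  set w : ℝ := if S = 0 then 1 else A.card / S with hw
  have hw0 : 0 ≤ w := by
    rw [hw]
    split_ifs
    · norm_num
    · positivity
  have hmain := exch_event (κ := {m // m ∈ A}) (ν := ν) hν (v := v) (p := p) hp
    (by rw [hcard]; exact hN) (Finset.range K ×ˢ Finset.range K) (fun _ => w) (fun _ _ => hw0)
    (fun t m => co n I J B t.1 t.2 m.1) (by
      rw [← Finset.mul_sum, hcard]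
      by_cases h0 : S = 0
      · have h1 : ∑ t ∈ Finset.range K ×ˢ Finset.range K, ∑ m : {m // m ∈ A},
            co n I J B t.1 t.2 m.1 ^ 2 ≤ 0 := by rw [h0] at hco; exact hco
        have h2 := mul_le_mul_of_nonneg_left h1 hw0
        rw [mul_zero] at h2
        exact h2.trans hN0.le
      · have hSpos : 0 < S := lt_of_le_of_ne hS0 (Ne.symm h0)
        have h2 := mul_le_mul_of_nonneg_left hco hw0
        refine h2.trans (le_of_eq ?_)
        rw [hw, if_neg h0]
        exact div_mul_cancel₀ _ h0)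
  refine hmain.trans (measureReal_mono ?_)
  rintro x ⟨h1, h2⟩
  refine ⟨h1, ?_⟩
  simp only [mem_ofPred_eq, energy, hcard] at h2
  rw [← Finset.mul_sum] at h2
  show enk n I J B A K x ≤ 8 * S
  rw [hen x, hcard]
  by_cases h0 : S = 0
  · have hz : ∀ t ∈ Finset.range K ×ˢ Finset.range K, ∀ m : {m // m ∈ A},
        co n I J B t.1 t.2 m.1 = 0 := by
      intro t ht m
      rw [h0] at hco
      have h3 := (Finset.sum_eq_zero_iff_of_nonneg (fun t _ =>
        Finset.sum_nonneg fun m _ => sq_nonneg (co n I J B t.1 t.2 (m : {m // m ∈ A}).1))).1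
        (le_antisymm hco (Finset.sum_nonneg fun t _ =>
          Finset.sum_nonneg fun m _ => sq_nonneg _)) t ht
      have h4 := (Finset.sum_eq_zero_iff_of_nonneg (fun m _ => sq_nonneg _)).1 h3 m
        (Finset.mem_univ m)
      exact pow_eq_zero_iff (two_ne_zero) |>.1 h4
    rw [h0, mul_zero]
    refine le_of_eq (Finset.sum_eq_zero fun t ht => ?_)
    rw [Finset.sum_eq_zero fun m _ => by rw [hz t ht m, zero_mul]]
    norm_num
  · have hSpos : 0 < S := lt_of_le_of_ne hS0 (Ne.symm h0)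
    rw [hw, if_neg h0] at h2
    have h3 : (A.card : ℝ) / S * (∑ t ∈ Finset.range K ×ˢ Finset.range K,
        (∑ m : {m // m ∈ A}, co n I J B t.1 t.2 m.1 * (x m - (∑ k, x k) / (A.card : ℝ))) ^ 2) ≤
        (A.card : ℝ) / S * (8 * S) := by
      refine h2.trans (le_of_eq ?_)
      rw [show (A.card : ℝ) / S * (8 * S) = 8 * ((A.card : ℝ) / S * S) by ring,
        div_mul_cancel₀ _ h0]
    exact le_of_mul_le_mul_left h3 (div_pos hN0 hSpos)

/-- the window event with a small energy, for all `K` -/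
lemma all_K (he : S_ENCO) {ν : Measure ℝ} [IsProbabilityMeasure ν]
    (hν : Integrable (fun x : ℝ => x ^ 2) ν) (n I J : ℕ) {B : ℝ} (hB : 0 ≤ B)
    (A : Finset (ℕ × ℕ)) {v p : ℝ} (hN : 0 < A.card)
    (hp : p ≤ (Measure.pi (fun _ : {m // m ∈ A} => ν)).real (win {m // m ∈ A} v)) :
    p / 2 ≤ (Measure.pi (fun _ : {m // m ∈ A} => ν)).real
      (⋂ K : ℕ, win {m // m ∈ A} v ∩ {x | enk n I J B A K x ≤ 8 * sig n I J B A}) := by
  refine iInter_bound (fun K => (measurableSet_win _ _).inter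
    (measurableSet_le (measurable_enk n I J B A K) measurable_const)) ?_
    fun K => one_K he hν n I J hB A K hN hp
  intro K K' hK x hx
  exact ⟨hx.1, (enk_mono n I J B A x hK).trans hx.2⟩

/-- the event of a block for one law -/
lemma prob_block (he : S_ENCO) {Ω : Type*} [MeasurableSpace Ω] {P : Measure Ω}
    [IsProbabilityMeasure P] {X : Ix → Ω → ℝ} {ν : Fin 2 → Measure ℝ}
    [∀ c, IsProbabilityMeasure (ν c)] (h : Std P X ν) {n I J G N : ℕ} {B : ℝ} (hB : 0 ≤ B)
    (c : Fin 2) (q : Cx N) (v : ℤ) {p : ℝ} (hN : 0 < (kc n I J G q).card)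
    (hp : p ≤ (Measure.pi (fun _ : {m // m ∈ kc n I J G q} => ν c)).real
      (win {m // m ∈ kc n I J G q} v)) :
    p / 2 ≤ P.real (ev X (EvC n I J G B c q v)) := by
  classical
  set A := kc n I J G q with hA
  have hcard : Fintype.card {m // m ∈ A} = A.card := Fintype.card_coe _
  have hN0 : (0:ℝ) < A.card := by exact_mod_cast hN
  set e : {m // m ∈ A} → Ix := fun m => (c, m.1) with hedef
  have hinj : Function.Injective e := by
    intro m m' hmm
    exact Subtype.ext (Prod.ext_iff.1 hmm).2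
  have hmain := all_K he (h.integrable_sq_law c) n I J hB A hN hp
  rw [← map_family h.meas h.indep (fun k => h.law (e k)) hinj] at hmain
  have hmf : Measurable (fun ω k => X (e k) ω) := measurable_pi_lambda _ fun k => h.meas _
  rw [map_measureReal_apply hmf (MeasurableSet.iInter fun K => (measurableSet_win _ _).inter
    (measurableSet_le (measurable_enk n I J B A K) measurable_const))] at hmain
  refine hmain.trans (measureReal_mono ?_)
  intro ω hω
  have hω' := fun K => mem_iInter.1 hω K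
  have hsum : ∀ f : ℕ × ℕ → ℝ, ∑ k : {m // m ∈ A}, f k.1 = ∑ m ∈ A, f m := fun f =>
    Finset.sum_coe_sort A f
  have hs1 : ∑ k : {m // m ∈ A}, X (e k) ω = ∑ m ∈ A, X (c, m) ω := hsum fun m => X (c, m) ω
  have hcm : cm A (fun m => X (c, m) ω) = (∑ m ∈ A, X (c, m) ω) / A.card := rfl
  refine ⟨?_, ?_⟩
  · have h1 := (hω' 0).1.1
    simp only [hcard, hs1] at h1
    show |√(A.card : ℝ) * cm A (fun m => X (c, m) ω) - v| < 1 / 2
    rw [hcm]
    have hsq : 0 < √(A.card : ℝ) := Real.sqrt_pos.2 hN0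
    have hss : √(A.card : ℝ) * √(A.card : ℝ) = A.card := Real.mul_self_sqrt hN0.le
    have e1 : √(A.card : ℝ) * ((∑ m ∈ A, X (c, m) ω) / A.card) =
        (√(A.card : ℝ))⁻¹ * ∑ m ∈ A, X (c, m) ω := by
      rw [← mul_div_assoc, div_eq_iff hN0.ne']
      nth_rewrite 3 [← hss]
      field_simp
    rw [e1]
    exact h1
  · intro K
    have h1 := (hω' K).2
    show enr n I J B K A (fun m => X (c, m) ω - cm A (fun m => X (c, m) ω)) ≤ 8 * sig n I J B A
    refine le_trans (le_of_eq ?_) h1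
    unfold enr enk
    refine Finset.sum_congr rfl fun k _ => Finset.sum_congr rfl fun l _ => ?_
    congr 1
    rw [hcard, hs1, hcm, ← hsum]

theorem pc_all.{u} (hb : S_BLK) (he : S_ENCO) : S_PC.{u} := by
  intro A G N hG
  choose pv hpv hpv2 using fun v : ℤ => clt_event (v : ℝ)
  -- the minimum over the finitely many values
  obtain ⟨v₀, -, hv₀⟩ := (Finset.Icc (-(A : ℤ)) A).exists_min_image pv ⟨0, by simp⟩
  refine ⟨pv v₀ / 2, by have := hpv v₀; positivity, ?_⟩
  intro Ω _ P _ X ν _ h B hB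
  choose N₁ hN₁ using fun (c : Fin 2) (v : ℤ) => hpv2 v (ν c) (h.mean c) (h.var c)
  set N₀ : ℕ := (Finset.univ : Finset (Fin 2)).sup fun c =>
    (Finset.Icc (-(A : ℤ)) A).sup fun v => N₁ c v with hN₀
  obtain ⟨n₀, hn₀⟩ := hb G N (max N₀ 1) hG
  refine ⟨n₀, fun n hn I J hIJ c q v hv => ?_⟩
  obtain ⟨hcard, -⟩ := (hn₀ n hn I J hIJ).1 q
  have hvm : v ∈ Finset.Icc (-(A : ℤ)) A := by
    rw [Finset.mem_Icc]
    exact abs_le.1 hv
  have h1 : N₁ c v ≤ N₀ :=
    (Finset.le_sup (f := fun v => N₁ c v) hvm).trans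
      (Finset.le_sup (f := fun c => (Finset.Icc (-(A : ℤ)) A).sup fun v => N₁ c v)
        (Finset.mem_univ c))
  have h2 := hN₁ c v {m // m ∈ kc n I J G q} (by
    rw [Fintype.card_coe]
    exact (h1.trans (le_max_left _ _)).trans hcard)
  have h3 := prob_block he h hB c q v (lt_of_lt_of_le Nat.zero_lt_one
    ((le_max_right _ _).trans hcard)) ((hv₀ v hvm).trans h2)
  exact h3

end Pool.Agent.Y484.KS
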